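import Mathlib
import Pool.Agent.W297.LP.Stm

/-!
Project LP (helper297): homomorphisms of a generalised lollipop.
-/

set_option autoImplicit false

open Finset

namespace Pool.Agent.W999.LPH

open Pool.Agent.W297.LP

open Classical in
/-- weighted number of homomorphisms of a graph with decorations -/
noncomputable def Phi {U V : Type} [Fintype U] [DecidableEq U] [Fintype V] (H : SimpleGraph U)
    (D : U → Tr) (W : V → V → ℝ) : ℝ :=
  ∑ f : U → V, if (∀ u v, H.Adj u v → W (f u) (f v) = 1) then ∏ u, td W (D u) (f u) else 0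

/-- extension of a function to the removed vertex -/
def ext {U V : Type} [DecidableEq U] (u : U) (y : V) (g : {x : U // x ≠ u} → V) : U → V :=
  fun j => if h : j = u then y else g ⟨j, h⟩

theorem ext_self {U V : Type} [DecidableEq U] (u : U) (y : V) (g : {x : U // x ≠ u} → V) :
    ext u y g u = y := by simp [ext]

theorem ext_val {U V : Type} [DecidableEq U] (u : U) (y : V) (g : {x : U // x ≠ u} → V)
    (v : {x : U // x ≠ u}) : ext u y g v.1 = g v := by
  simp [ext, v.2]

theorem ext_ne {U V : Type} [DecidableEq U] (u : U) (y : V) (g : {x : U // x ≠ u} → V)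
    (v : U) (h : v ≠ u) : ext u y g v = g ⟨v, h⟩ := by
  simp [ext, h]

/-- removing a vertex of degree one -/
theorem leaf {U : Type} [Fintype U] [DecidableEq U] (H : SimpleGraph U) {u p : U}
    (hup : H.Adj u p) (hun : ∀ v, H.Adj u v → v = p) (D : U → Tr) {V : Type} [Fintype V]
    (W : V → V → ℝ) (hW : Ker W) :
    Phi H D W = (Fintype.card V : ℝ) *
      Phi (H.comap (Subtype.val : {x : U // x ≠ u} → U))
        (fun v => if v.1 = p then Tr.br (D p) (D u) else D v.1) W := by
  classical
  have hpu : p ≠ u := hup.ne'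
  rcases isEmpty_or_nonempty V with hV | hV
  · have h1 : Phi H D W = 0 := by
      unfold Phi
      have : IsEmpty (U → V) := ⟨fun f => hV.false (f u)⟩
      exact Finset.sum_of_isEmpty _
    rw [h1]
    simp
  have hn : (Fintype.card V : ℝ) ≠ 0 := by
    have : 0 < Fintype.card V := Fintype.card_pos
    positivity
  unfold Phi
  have h1 : ∀ F : (U → V) → ℝ, ∑ f : U → V, F f =
      ∑ g : {x : U // x ≠ u} → V, ∑ y : V, F (ext u y g) := by
    intro F
    rw [← (Equiv.funSplitAt u V).symm.sum_comp, Fintype.sum_prod_type, Finset.sum_comm]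
    refine Finset.sum_congr rfl (fun g _ => Finset.sum_congr rfl (fun y _ => ?_))
    congr 1
    funext j
    by_cases hj : j = u
    · subst hj
      simp [ext, Equiv.funSplitAt, Equiv.piSplitAt]
    · simp [ext, Equiv.funSplitAt, Equiv.piSplitAt, hj]
  rw [h1, Finset.mul_sum]
  refine Finset.sum_congr rfl (fun g _ => ?_)
  have hcond : ∀ y : V, (∀ a b, H.Adj a b → W (ext u y g a) (ext u y g b) = 1) ↔
      ((∀ a b : {x : U // x ≠ u}, (H.comap (Subtype.val : {x : U // x ≠ u} → U)).Adj a b →
        W (g a) (g b) = 1) ∧ W (g ⟨p, hpu⟩) y = 1) := by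
    intro y
    constructor
    · intro h
      refine ⟨fun a b hab => ?_, ?_⟩
      · have := h a.1 b.1 hab
        rwa [ext_val, ext_val] at this
      · have := h p u hup.symm
        rwa [ext_self, ext_ne u y g p hpu] at this
    · rintro ⟨h2, h3⟩ a b hab
      by_cases ha : a = u
      · subst ha
        have hb := hun b hab
        subst hb
        rw [ext_self, ext_ne a y g b hpu, hW.symm]
        exact h3
      · by_cases hb : b = u
        · subst hb
          have ha' := hun a hab.symm
          subst ha'
          rw [ext_self, ext_ne b y g a hpu]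
          exact h3
        · rw [ext_ne u y g a ha, ext_ne u y g b hb]
          exact h2 ⟨a, ha⟩ ⟨b, hb⟩ hab
  have hprod : ∀ y : V, ∏ v, td W (D v) (ext u y g v) =
      td W (D u) y * ∏ v : {x : U // x ≠ u}, td W (D v.1) (g v) := by
    intro y
    rw [Fintype.prod_eq_mul_prod_subtype_ne _ u, ext_self]
    congr 1
    exact Finset.prod_congr rfl (fun v _ => by rw [ext_val])
  have hprod' : ∏ v : {x : U // x ≠ u},
      td W (if v.1 = p then Tr.br (D p) (D u) else D v.1) (g v) =
      (∏ v : {x : U // x ≠ u}, td W (D v.1) (g v)) *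
        ((∑ y, W (g ⟨p, hpu⟩) y * td W (D u) y) / (Fintype.card V : ℝ)) := by
    have h2 : ∀ v : {x : U // x ≠ u},
        td W (if v.1 = p then Tr.br (D p) (D u) else D v.1) (g v) =
        td W (D v.1) (g v) * (if v = ⟨p, hpu⟩ then
          ((∑ y, W (g ⟨p, hpu⟩) y * td W (D u) y) / (Fintype.card V : ℝ)) else 1) := by
      intro v
      by_cases hv : v.1 = p
      · have hv' : v = ⟨p, hpu⟩ := Subtype.ext hv
        rw [if_pos hv, if_pos hv', hv']
        rfl
      · have hv' : v ≠ ⟨p, hpu⟩ := fun h => hv (by rw [h])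
        rw [if_neg hv, if_neg hv', mul_one]
    rw [Finset.prod_congr rfl (fun v _ => h2 v), Finset.prod_mul_distrib]
    congr 1
    rw [Finset.prod_ite_eq' univ (⟨p, hpu⟩ : {x : U // x ≠ u})]
    simp
  by_cases hc : ∀ a b : {x : U // x ≠ u},
      (H.comap (Subtype.val : {x : U // x ≠ u} → U)).Adj a b → W (g a) (g b) = 1
  · rw [if_pos hc, hprod']
    have h3 : ∀ y : V, (if (∀ a b, H.Adj a b → W (ext u y g a) (ext u y g b) = 1)
        then ∏ v, td W (D v) (ext u y g v) else 0) =
        (∏ v : {x : U // x ≠ u}, td W (D v.1) (g v)) * (W (g ⟨p, hpu⟩) y * td W (D u) y) := by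
      intro y
      rcases hW.zo (g ⟨p, hpu⟩) y with h4 | h4
      · rw [if_neg, h4]
        · ring
        · intro h5
          have := ((hcond y).1 h5).2
          rw [h4] at this
          exact absurd this (by norm_num)
      · rw [if_pos ((hcond y).2 ⟨hc, h4⟩), hprod y, h4]
        ring
    rw [Finset.sum_congr rfl (fun y _ => h3 y), ← Finset.mul_sum]
    field_simp
  · rw [if_neg hc, mul_zero]
    apply Finset.sum_eq_zero
    intro y _
    rw [if_neg]
    intro h5
    exact hc ((hcond y).1 h5).1

/-- there is a vertex of degree one outside the clique -/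
theorem exists_leaf {U : Type} [Fintype U] [DecidableEq U] (H : SimpleGraph U)
    [DecidableRel H.Adj] {k m : ℕ} (hk : 1 ≤ k) (σ : Fin k → U) (hσ : Function.Injective σ)
    (hadj : ∀ i j, i ≠ j → H.Adj (σ i) (σ j)) (hconn : H.Connected)
    (hcard : Fintype.card U = k + (m + 1)) (hedge : H.edgeSet.ncard = k.choose 2 + (m + 1)) :
    ∃ u, (∀ i, σ i ≠ u) ∧ H.degree u = 1 := by
  by_contra hno
  push Not at hno
  have hnt : Nontrivial U := by
    rw [← Fintype.one_lt_card_iff_nontrivial]; omega
  set S : Finset U := univ.image σ with hS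
  have hSc : S.card = k := by
    rw [hS, Finset.card_image_of_injective _ hσ, Finset.card_univ, Fintype.card_fin]
  have hout : ∀ u, u ∉ S → 2 ≤ H.degree u := by
    intro u hu
    have h1 : H.degree u ≠ 1 := hno u (by
      intro i hi
      exact hu (by rw [hS, mem_image]; exact ⟨i, mem_univ _, hi⟩))
    have h2 := hconn.preconnected.degree_pos_of_nontrivial u
    omega
  have hsub : ∀ u ∈ S, S.erase u ⊆ H.neighborFinset u := by
    intro u hu v hv
    rw [mem_erase] at hv
    rw [hS, mem_image] at hu hv
    obtain ⟨i, -, rfl⟩ := hu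
    obtain ⟨hne, j, -, rfl⟩ := hv
    rw [SimpleGraph.mem_neighborFinset]
    exact hadj i j (fun h => hne (by rw [h]))
  have hin : ∀ u ∈ S, k - 1 ≤ H.degree u := by
    intro u hu
    have := Finset.card_le_card (hsub u hu)
    rwa [Finset.card_erase_of_mem hu, hSc, SimpleGraph.card_neighborFinset_eq_degree] at this
  have hE : H.edgeFinset.card = k.choose 2 + (m + 1) := by
    rw [← hedge, Set.ncard_eq_toFinset_card']
    rfl
  have hsum := H.sum_degrees_eq_twice_card_edges
  rw [hE] at hsum
  have hle : ∀ u ∈ (univ : Finset U), (if u ∈ S then k - 1 else 2) ≤ H.degree u := by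
    intro u _
    split_ifs with h
    · exact hin u h
    · exact hout u h
  have hb : ∑ u : U, (if u ∈ S then k - 1 else 2) = 2 * (k.choose 2 + (m + 1)) := by
    rw [Finset.sum_ite, Finset.sum_const, Finset.sum_const]
    have h1 : (univ.filter (fun u => u ∈ S)).card = k := by
      rw [Finset.filter_univ_mem, hSc]
    have h2 : (univ.filter (fun u => u ∉ S)).card = m + 1 := by
      have h3 := Finset.card_filter_add_card_filter_not (s := (univ : Finset U)) (fun u => u ∈ S)
      rw [h1, Finset.card_univ, hcard] at h3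
      omega
    rw [h1, h2, smul_eq_mul, smul_eq_mul, Nat.choose_two_right, Nat.mul_add,
      Nat.mul_div_cancel' (Nat.even_mul_pred_self k).two_dvd]
    ring
  have heq := (Finset.sum_eq_sum_iff_of_le hle).1 (hb.trans hsum.symm)
  have hclosed : ∀ u ∈ S, ∀ v, H.Adj u v → v ∈ S := by
    intro u hu v huv
    have h1 := heq u (mem_univ _)
    rw [if_pos hu] at h1
    have h2 : S.erase u = H.neighborFinset u := by
      apply Finset.eq_of_subset_of_card_le (hsub u hu)
      rw [SimpleGraph.card_neighborFinset_eq_degree, ← h1, Finset.card_erase_of_mem hu, hSc]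
    have h3 : v ∈ H.neighborFinset u := by
      rw [SimpleGraph.mem_neighborFinset]; exact huv
    rw [← h2] at h3
    exact Finset.mem_of_mem_erase h3
  have hall : ∀ v, v ∈ S := by
    intro v
    have h1 := (SimpleGraph.reachable_iff_reflTransGen _ _).1
      (hconn.preconnected (σ ⟨0, by omega⟩) v)
    induction h1 with
    | refl => rw [hS, mem_image]; exact ⟨_, mem_univ _, rfl⟩
    | tail _ hab ih => exact hclosed _ ih _ hab
  have : S = univ := by
    ext v; simp [hall v]
  rw [this, Finset.card_univ, hcard] at hSc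
  omega

theorem key (k : ℕ) (hk : 1 ≤ k) : ∀ (m : ℕ) (U : Type) [Fintype U] [DecidableEq U]
    (H : SimpleGraph U) (σ : Fin k → U), Function.Injective σ →
    (∀ i j, i ≠ j → H.Adj (σ i) (σ j)) → H.Connected → Fintype.card U = k + m →
    H.edgeSet.ncard = k.choose 2 + m → ∀ D : U → Tr,
    ∃ T : Fin k → Tr, tot T = ∑ u, (D u).sz + m ∧
      ∀ (V : Type) [Fintype V] (W : V → V → ℝ), Ker W →
        Phi H D W = (Fintype.card V : ℝ) ^ m * ∑ x ∈ cl W univ k, ∏ i, td W (T i) (x i) := by
  classical
  intro m
  induction m with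
  | zero =>
    intro U _ _ H σ hσ hadj hconn hcard hedge D
    have hbij : Function.Bijective σ := by
      rw [Fintype.bijective_iff_injective_and_card]
      exact ⟨hσ, by rw [Fintype.card_fin, hcard, Nat.add_zero]⟩
    obtain ⟨e, he⟩ : ∃ e : Fin k ≃ U, ∀ i, e i = σ i :=
      ⟨Equiv.ofBijective σ hbij, fun _ => rfl⟩
    refine ⟨fun i => D (σ i), ?_, ?_⟩
    · unfold tot
      rw [Nat.add_zero, ← e.sum_comp]
      exact Finset.sum_congr rfl (fun i _ => by rw [he])
    · intro V _ W hW
      rw [pow_zero, one_mul]
      unfold Phi cl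
      rw [Finset.sum_filter, ← (e.arrowCongr (Equiv.refl V)).sum_comp]
      refine Finset.sum_congr rfl (fun x _ => ?_)
      have h1 : ∀ i, (e.arrowCongr (Equiv.refl V)) x (e i) = x i := by
        intro i
        simp [Equiv.arrowCongr]
      have hcond : (∀ u v, H.Adj u v → W ((e.arrowCongr (Equiv.refl V)) x u)
          ((e.arrowCongr (Equiv.refl V)) x v) = 1) ↔
          ((∀ i, x i ∈ (univ : Finset V)) ∧ ∀ i j, i ≠ j → W (x i) (x j) = 1) := by
        constructor
        · intro h
          refine ⟨fun i => mem_univ _, fun i j hij => ?_⟩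
          have := h (e i) (e j) (by rw [he, he]; exact hadj i j hij)
          rwa [h1, h1] at this
        · rintro ⟨-, h⟩ u v huv
          obtain ⟨i, rfl⟩ := e.surjective u
          obtain ⟨j, rfl⟩ := e.surjective v
          rw [h1, h1]
          exact h i j (fun hij => huv.ne (by rw [hij]))
      by_cases hc : (∀ u v, H.Adj u v → W ((e.arrowCongr (Equiv.refl V)) x u)
          ((e.arrowCongr (Equiv.refl V)) x v) = 1)
      · rw [if_pos hc, if_pos (hcond.1 hc), ← e.prod_comp]
        exact Finset.prod_congr rfl (fun i _ => by rw [h1, he])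
      · rw [if_neg hc, if_neg (fun h => hc (hcond.2 h))]
  | succ m ih =>
    intro U _ _ H σ hσ hadj hconn hcard hedge D
    obtain ⟨u, hu, hdeg⟩ := exists_leaf H hk σ hσ hadj hconn hcard hedge
    obtain ⟨p, hup, hun⟩ := SimpleGraph.degree_eq_one_iff_existsUnique_adj.1 hdeg
    have hconn' : (H.comap (Subtype.val : {x : U // x ≠ u} → U)).Connected :=
      hconn.induce_compl_singleton_of_degree_eq_one hdeg
    have hcard' : Fintype.card {x : U // x ≠ u} = k + m := by
      have := Fintype.card_subtype_compl (fun x : U => x = u)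
      rw [Fintype.card_subtype_eq, hcard] at this
      rw [show Fintype.card {x : U // x ≠ u} = Fintype.card {x : U // ¬ x = u} from rfl, this]
      omega
    have hedge' : (H.comap (Subtype.val : {x : U // x ≠ u} → U)).edgeSet.ncard =
        k.choose 2 + m := by
      have h1 := H.card_edgeFinset_induce_compl_singleton u
      rw [H.card_edgeFinset_deleteIncidenceSet u, hdeg] at h1
      have h2 : H.edgeFinset.card = k.choose 2 + (m + 1) := by
        rw [← hedge, Set.ncard_eq_toFinset_card']
        rfl
      rw [h2] at h1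
      have h3 : (H.induce ({u}ᶜ : Set U)).edgeSet.ncard = k.choose 2 + m := by
        rw [Set.ncard_eq_toFinset_card']
        have h4 : (H.induce ({u}ᶜ : Set U)).edgeSet.toFinset.card =
            (H.induce ({u}ᶜ : Set U)).edgeFinset.card := rfl
        rw [h4, h1]
        omega
      exact h3
    obtain ⟨T, hT1, hT2⟩ := ih {x : U // x ≠ u} (H.comap (Subtype.val : {x : U // x ≠ u} → U))
      (fun i => ⟨σ i, hu i⟩) (fun i j hij => hσ (congrArg Subtype.val hij))
      (fun i j hij => hadj i j hij) hconn' hcard' hedge'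
      (fun v => if v.1 = p then Tr.br (D p) (D u) else D v.1)
    refine ⟨T, ?_, ?_⟩
    · rw [hT1]
      have hpu : p ≠ u := hup.ne'
      have h1 : ∑ v, (D v).sz = (D u).sz + ∑ v : {x : U // x ≠ u}, (D v.1).sz :=
        Fintype.sum_eq_add_sum_subtype_ne (fun v => (D v).sz) u
      have h2 : ∑ v : {x : U // x ≠ u}, (if v.1 = p then Tr.br (D p) (D u) else D v.1).sz =
          ∑ v : {x : U // x ≠ u}, (D v.1).sz + ((D u).sz + 1) := by
        have h3 : ∀ v : {x : U // x ≠ u}, (if v.1 = p then Tr.br (D p) (D u) else D v.1).sz =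
            (D v.1).sz + (if v = ⟨p, hpu⟩ then (D u).sz + 1 else 0) := by
          intro v
          by_cases hv : v.1 = p
          · have hv' : v = ⟨p, hpu⟩ := Subtype.ext hv
            rw [if_pos hv, if_pos hv', hv']
            show (D p).sz + (D u).sz + 1 = _
            ring
          · have hv' : v ≠ ⟨p, hpu⟩ := fun h => hv (by rw [h])
            rw [if_neg hv, if_neg hv', Nat.add_zero]
        rw [Finset.sum_congr rfl (fun v _ => h3 v), Finset.sum_add_distrib,
          Finset.sum_ite_eq' univ (⟨p, hpu⟩ : {x : U // x ≠ u})]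
        simp
      rw [h1, h2]
      ring
    · intro V _ W hW
      rw [leaf H hup hun D W hW, hT2 V W hW, pow_succ]
      ring

open Classical in
theorem hom : SHom := by
  intro k hk t H hH
  obtain ⟨hconn, S, hSc, hS, hedge⟩ := hH
  have hkt : k ≤ t := by
    rw [← hSc]
    simpa using Finset.card_le_univ S
  obtain ⟨T, hT1, hT2⟩ := key k (by omega) (t - k) (Fin t) H (fun i => S.orderEmbOfFin hSc i)
    (S.orderEmbOfFin hSc).injective
    (fun i j hij => hS _ (Finset.orderEmbOfFin_mem _ _ _) _ (Finset.orderEmbOfFin_mem _ _ _)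
      (fun h => hij ((S.orderEmbOfFin hSc).injective h)))
    hconn (by rw [Fintype.card_fin]; omega) hedge (fun _ => Tr.pt)
  refine ⟨T, ?_, ?_⟩
  · rw [hT1]
    simp only [Tr.sz, Finset.sum_const_zero, Nat.zero_add]
    omega
  · intro V _ W hW
    have h1 : (((Finset.univ : Finset (Fin t → V)).filter
        (fun f => ∀ u v, H.Adj u v → W (f u) (f v) = 1)).card : ℝ) =
        Phi H (fun _ => Tr.pt) W := by
      unfold Phi
      rw [Finset.card_filter]
      push_cast
      refine Finset.sum_congr (by congr!) (fun f _ => ?_)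
      simp only [td, Finset.prod_const_one]
    rw [h1, hT2 V W hW]
    rcases isEmpty_or_nonempty V with hV | hV
    · have h0 : Fintype.card V = 0 := Fintype.card_eq_zero
      have h2 : (cl W univ k) = ∅ := by
        rw [Finset.eq_empty_iff_forall_notMem]
        intro x _
        exact hV.false (x ⟨0, by omega⟩)
      rw [h0, h2]
      simp only [Finset.sum_empty, mul_zero]
      rw [Nat.cast_zero, zero_pow (by omega), mul_zero]
    · have hn : (Fintype.card V : ℝ) ≠ 0 := by
        have : 0 < Fintype.card V := Fintype.card_pos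
        positivity
      unfold lol
      have h2 : (Fintype.card V : ℝ) ^ t =
          (Fintype.card V : ℝ) ^ (t - k) * (Fintype.card V : ℝ) ^ k := by
        rw [← pow_add]; congr 1; omega
      rw [h2]
      field_simp

end Pool.Agent.W999.LPH
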